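import Pool.Agent.X213.FujFib
import Pool.Agent.TH144.MB.Hyper

/-!
# Fujita's very ampleness conjecture for diagonal quotients of products, fibred over a base

`Y = ∏ Y_i`, `Y_i ⊂ P^(N_i)` a complete intersection, or arithmetically Cohen-Macaulay, with
`ω_(Y_i) = O(κ_i)` and `n_i = dim Y_i`. A finite group `G` acts by diagonal matrices on every
`P^(N_i)`, preserving `Y_i`, and freely on one factor, the base `Y_b` (the actions on the other
factors are arbitrary). So `X = Y/G` is fibred over `Y_b/G` with fibre the product of the other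
factors. For a line bundle `A` on `X` whose pullback to `Y` is `⊠ O(k_i)`, `k_i ≥ 1`, the sections of
`K_X + mA` are the multihomogeneous forms of multidegree `(κ_i + m k_i)` on which `G` acts by a given
character. For `m ≥ dim X + 2` (even for `m ≥ max n_i + 2`) they have no common zero, separate points
and separate tangent vectors, if `G` has at most `κ_b + m k_b` elements or the base is a
hypersurface of positive dimension.
-/

set_option autoImplicit false

namespace Pool.Agent.Results.MP_e09b14_ag.FibrationsOverQuotients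

open MvPolynomial

/-- Homogeneous ideals `I i` in `ℂ[x_0, …, x_(N i)]` and actions of `G` on `ℂ^(N i + 1)` by diagonal
matrices, the `j`-th coordinate being multiplied by the character `α i j`. The ideals `I i` are
stable under `G`, and no element `g ≠ 1` fixes a line in the zero set of the ideal `I b` of the
base. -/
structure TwistedProduct (G : Type) [Group G] {ι : Type} (b : ι) (N : ι → ℕ) where
  I : ∀ i, Ideal (MvPolynomial (Fin (N i + 1)) ℂ)
  homogeneous : ∀ i, ∀ p ∈ I i, ∀ n, homogeneousComponent n p ∈ I i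
  α : ∀ i, Fin (N i + 1) → G →* ℂˣ
  stable : ∀ i, ∀ (g : G), ∀ p ∈ I i, bind₁ (fun j => C (α i j g : ℂ) * X j) p ∈ I i
  free : ∀ v : Fin (N b + 1) → ℂ, v ≠ 0 → (∀ p ∈ I b, eval v p = 0) → ∀ (g : G) (μ : ℂ),
    (∀ j, (α b j g : ℂ) * v j = μ * v j) → g = 1

/-- the linear form with coefficients `a` -/
noncomputable def linForm {N : ℕ} (a : Fin (N + 1) → ℂ) : MvPolynomial (Fin (N + 1)) ℂ :=
  ∑ i, C (a i) * X i

/-- `I` is generated by `c = N - n` forms of degrees `d j ≥ 1`, and `κ = ∑ d j - (N + 1)`. -/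
def CompleteIntersection {N : ℕ} (I : Ideal (MvPolynomial (Fin (N + 1)) ℂ)) (n : ℕ) (κ : ℤ) :
    Prop :=
  ∃ (c : ℕ) (f : Fin c → MvPolynomial (Fin (N + 1)) ℂ) (d : Fin c → ℕ),
    (∀ j, (f j).IsHomogeneous (d j) ∧ 0 < d j) ∧ I = Ideal.span (Set.range f) ∧
    N = n + c ∧ κ = ∑ j, (d j : ℤ) - (N + 1)

/-- There are `n + 1` linear forms which are a regular sequence modulo `I`, and modulo `I` and these
linear forms there are no nonzero forms of degree `> κ + n + 1`. For the ideal of an arithmetically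
Cohen-Macaulay variety of dimension `n` this says that the `a`-invariant is at most `κ`. -/
def CohenMacaulay {N : ℕ} (I : Ideal (MvPolynomial (Fin (N + 1)) ℂ)) (n : ℕ) (κ : ℤ) : Prop :=
  ∃ a : Fin (n + 1) → Fin (N + 1) → ℂ,
    (∀ i p, linForm (a i) * p ∈ I ⊔ Ideal.span ((fun j => linForm (a j)) '' {j | j < i}) →
      p ∈ I ⊔ Ideal.span ((fun j => linForm (a j)) '' {j | j < i})) ∧
    ∀ t : ℕ, κ + n + 1 < t → ∀ p : MvPolynomial (Fin (N + 1)) ℂ, p.IsHomogeneous t →
      p ∈ I ⊔ Ideal.span (Set.range fun j => linForm (a j))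

/-- The multihomogeneous forms of multidegree `e` (degree `e i` in the `i`-th group of variables)
on which `G` acts by the character `χ`: the sections of the line bundle on `X = Y/G` given by `e`
and `χ`. -/
def Section {G : Type} [Group G] {ι : Type} [DecidableEq ι] {b : ι} {N : ι → ℕ}
    (D : TwistedProduct G b N) (e : ι → ℕ) (χ : G →* ℂˣ)
    (F : MvPolynomial (Σ i, Fin (N i + 1)) ℂ) : Prop :=
  (∀ i, IsWeightedHomogeneous
    (fun s : Σ i, Fin (N i + 1) => if s.1 = i then (1 : ℕ) else 0) F (e i)) ∧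
    ∀ (g : G) (x : ∀ i, Fin (N i + 1) → ℂ),
      eval (fun s => (D.α s.1 s.2 g : ℂ) * x s.1 s.2) F = χ g * eval (fun s => x s.1 s.2) F

/-- `v` is a point of the product of the cones over the `Y_i`, nonzero in every factor -/
def IsPoint {G : Type} [Group G] {ι : Type} {b : ι} {N : ι → ℕ}
    (D : TwistedProduct G b N) (v : ∀ i, Fin (N i + 1) → ℂ) : Prop :=
  ∀ i, v i ≠ 0 ∧ ∀ p ∈ D.I i, eval (v i) p = 0

open Pool.Agent.TH144.MB in
theorem reg_ofFn {N : ℕ} (s : ℕ) : ∀ (a : Fin s → Fin (N + 1) → ℂ)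
    (I : Ideal (MvPolynomial (Fin (N + 1)) ℂ)),
    (∀ i p, linForm (a i) * p ∈ I ⊔ Ideal.span ((fun j => linForm (a j)) '' {j | j < i}) →
      p ∈ I ⊔ Ideal.span ((fun j => linForm (a j)) '' {j | j < i})) →
    Reg I ((List.ofFn a).map lin) := by
  induction s with
  | zero => intro a I _; simp [Reg]
  | succ s ih =>
    intro a I h
    rw [List.ofFn_succ, List.map_cons]
    refine ⟨?_, ih _ _ ?_⟩
    · have h0 := h 0
      have h1 : {j : Fin (s + 1) | j < 0} = ∅ := by
        ext j
        simp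
      rw [h1, Set.image_empty, Ideal.span_empty, sup_bot_eq] at h0
      exact h0
    · intro i p
      have h0 := h i.succ p
      have h1 : {j : Fin (s + 1) | j < i.succ} = {0} ∪ Fin.succ '' {j | j < i} := by
        ext j
        refine Fin.cases ?_ (fun j => ?_) j
        · simp
        · simp [Fin.succ_ne_zero]
      have h2 : I ⊔ Ideal.span ((fun j => linForm (a j)) '' {j | j < i.succ})
          = I ⊔ Ideal.span {lin (a 0)}
            ⊔ Ideal.span ((fun j => linForm (a (Fin.succ j))) '' {j | j < i}) := by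
        rw [h1, Set.image_union, Set.image_singleton, Ideal.span_union, ← sup_assoc,
          Set.image_image]
        rfl
      rw [h2] at h0
      exact h0

open Pool.Agent.TH144.MB in
theorem le_ext_ofFn {N : ℕ} (s : ℕ) (a : Fin s → Fin (N + 1) → ℂ)
    (I : Ideal (MvPolynomial (Fin (N + 1)) ℂ)) :
    I ⊔ Ideal.span (Set.range fun j => linForm (a j)) ≤ ext I ((List.ofFn a).map lin) := by
  have h4 : ∀ (L : List (MvPolynomial (Fin (N + 1)) ℂ))
      (I : Ideal (MvPolynomial (Fin (N + 1)) ℂ)), ∀ f ∈ L, f ∈ ext I L := by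
    intro L
    induction L with
    | nil => intro I f hf; simp at hf
    | cons g L ih =>
      intro I f hf
      rw [ext_cons]
      rcases List.mem_cons.1 hf with rfl | hf
      · exact Ideal.mem_sup_right (Ideal.mem_span_singleton_self f)
      · exact Ideal.mem_sup_left (ih I f hf)
  refine sup_le (le_ext _ _) ?_
  rw [Ideal.span_le]
  rintro _ ⟨j, rfl⟩
  refine h4 _ _ _ (List.mem_map.2 ⟨a j, ?_, rfl⟩)
  rw [List.mem_ofFn]
  exact ⟨j, rfl⟩

open Pool.Agent.TH144.MB in
theorem key {N : ℕ} {I : Ideal (MvPolynomial (Fin (N + 1)) ℂ)}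
    (hI : ∀ p ∈ I, ∀ n, homogeneousComponent n p ∈ I) {n : ℕ} {κ : ℤ}
    (hY : CompleteIntersection I n κ ∨ CohenMacaulay I n κ)
    (y : Fin (N + 1) → ℂ) (hy : ∀ p ∈ I, eval y p = 0) :
    ∃ ρ : ℕ, TopBound I ρ ∧ (ρ : ℤ) ≤ κ + n + 1 := by
  rcases hY with ⟨c, f, d, hfd, hI, hN, hκ⟩ | ⟨a, ha, hb⟩
  · refine ⟨∑ j, (d j - 1), ?_, ?_⟩
    · rw [hI]
      exact topBound_forms f d (fun j => (hfd j).1) fun j => (hfd j).2
    · have h1 : ((∑ j, (d j - 1) : ℕ) : ℤ) = ∑ j, (d j : ℤ) - c := by
        rw [Nat.cast_sum]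
        have h2 : ∀ j, ((d j - 1 : ℕ) : ℤ) = (d j : ℤ) - 1 := fun j => by
          have := (hfd j).2
          omega
        simp only [h2]
        rw [Finset.sum_sub_distrib]
        simp
      have h3 : (N : ℤ) = n + c := by exact_mod_cast hN
      rw [h1, hκ, h3]
      linarith
  · rcases lt_or_ge (κ + n + 1) 0 with h0 | h0
    · exfalso
      have h1 := hb 0 (by simpa using h0) 1 (isHomogeneous_one _ _)
      have h2 : I ⊔ Ideal.span (Set.range fun j => linForm (a j))
          ≤ RingHom.ker (eval (fun i => (0 : ℂ) * y i)) := by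
        refine sup_le (fun p hp => RingHom.mem_ker.2 (cone hI hy 0 p hp)) ?_
        rw [Ideal.span_le]
        rintro _ ⟨j, rfl⟩
        refine RingHom.mem_ker.2 ?_
        simp [linForm]
      have h3 := RingHom.mem_ker.1 (h2 h1)
      rw [map_one] at h3
      exact one_ne_zero h3
    · refine ⟨(κ + n + 1).toNat, ?_, by omega⟩
      refine topBound_cm hI (List.ofFn a) (reg_ofFn (n + 1) a I ha) ?_
      intro t ht p hp
      refine le_ext_ofFn (n + 1) a I (hb t ?_ p hp)
      omega

theorem result {G : Type} [Group G] [Finite G] {ι : Type} [Fintype ι] [DecidableEq ι]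
    {b : ι} {N : ι → ℕ} (D : TwistedProduct G b N) (hD : ∃ v, IsPoint D v) (n : ι → ℕ)
    (κ : ι → ℤ)
    (hY : ∀ i, CompleteIntersection (D.I i) (n i) (κ i) ∨ CohenMacaulay (D.I i) (n i) (κ i))
    (k : ι → ℕ) (hk : ∀ i, 1 ≤ k i) (m : ℕ) (hm : ∀ i, n i + 2 ≤ m)
    (hG : (Nat.card G : ℤ) ≤ κ b + m * k b ∨
      CompleteIntersection (D.I b) (n b) (κ b) ∧ 1 ≤ n b ∧ N b = n b + 1)
    (χ : G →* ℂˣ) :
    ∃ e : ι → ℕ, (∀ i, (e i : ℤ) = κ i + m * k i) ∧
    -- no base points
    (∀ y, IsPoint D y → ∃ F, Section D e χ F ∧ eval (fun s => y s.1 s.2) F ≠ 0) ∧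
    -- points are separated
    (∀ y z, IsPoint D y → IsPoint D z →
      (¬ ∃ g : G, ∀ i, ∃ c : ℂ, ∀ j, z i j = c * (D.α i j g * y i j)) →
      ∃ F, Section D e χ F ∧ eval (fun s => y s.1 s.2) F = 0 ∧
        eval (fun s => z s.1 s.2) F ≠ 0) ∧
    -- tangent vectors are separated
    (∀ y, IsPoint D y → ∀ u : ∀ i, Fin (N i + 1) → ℂ,
      (∀ i, ∀ p ∈ D.I i, ∑ j, eval (y i) (pderiv j p) * u i j = 0) →
      (¬ ∀ i, ∃ c : ℂ, ∀ j, u i j = c * y i j) →
      ∃ F, Section D e χ F ∧ eval (fun s => y s.1 s.2) F = 0 ∧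
        ∑ s, eval (fun s => y s.1 s.2) (pderiv s F) * u s.1 s.2 ≠ 0) := by
  classical
  have _ := Fintype.ofFinite G
  have hst : ∀ i, ∀ v : Fin (N i + 1) → ℂ, (∀ p ∈ D.I i, eval v p = 0) → ∀ (g : G),
      ∀ p ∈ D.I i, eval (Pool.Agent.TH144.MB.mv (D.α i) g v) p = 0 := by
    intro i v hv g p hp
    rw [← Pool.Agent.TH144.MB.eval_act]
    exact hv _ (D.stable i g p hp)
  let S : Pool.Agent.TH144.MB.Sit ℂ G (N b + 1) :=
    { I := D.I b, hom := D.homogeneous b, α := D.α b, stable := hst b, free := D.free }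
  obtain ⟨v, hv⟩ := hD
  choose ρ hρ hρle using fun i => key (D.homogeneous i) (hY i) (v i) (hv i).2
  have hmk : ∀ i, ((n i : ℤ) + 2) ≤ m * k i := by
    intro i
    have h1 : n i + 2 ≤ m * k i := (hm i).trans (Nat.le_mul_of_pos_right m (hk i))
    exact_mod_cast h1
  have he : ∀ i, (ρ i : ℤ) + 1 ≤ κ i + m * k i := by
    intro i
    have h1 := hmk i
    have h2 := hρle i
    linarith
  set e : ι → ℕ := fun i => (κ i + m * k i).toNat with hedef
  have hee : ∀ i, (e i : ℤ) = κ i + m * k i := fun i => by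
    have h1 := he i
    have h4 : (0 : ℤ) ≤ ρ i := Int.natCast_nonneg _
    exact Int.toNat_of_nonneg (by linarith)
  have heρ : ∀ i, ρ i + 1 ≤ e i := fun i => by
    have h1 := he i
    rw [← hee i] at h1
    exact_mod_cast h1
  have he1 : ∀ i, i ≠ b → 1 ≤ e i := fun i _ => by
    have := heρ i
    omega
  have hr : Fintype.card G ≤ e b := by
    rcases hG with hG | ⟨⟨c, f, d, hfd, hI, hN, hκ⟩, hn, hNn⟩
    · rw [Nat.card_eq_fintype_card, ← hee b] at hG
      exact_mod_cast hG
    · obtain rfl : c = 1 := by omega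
      have h1 : Set.range f = {f 0} := by
        ext x
        simp [eq_comm]
      rw [h1] at hI
      have h2 := S.card_le (hfd 0).1 (hfd 0).2 hI (i := ⟨0, by omega⟩) (j := ⟨1, by omega⟩)
        (by simp)
      have h3 : (d 0 : ℤ) ≤ e b := by
        have h4 := hmk b
        rw [hee b, hκ, Fin.sum_univ_one, hNn]
        push_cast
        linarith
      have h4 : d 0 ≤ e b := by exact_mod_cast h3
      exact h2.trans h4
  have B0 : ∀ w : Fin (N b + 1) → ℂ, w ≠ 0 → (∀ p ∈ D.I b, eval w p = 0) →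
      ∀ χ : G →* ℂˣ, ∃ P, Pool.Agent.TH144.MB.Typ (D.α b) χ (e b) P ∧ eval w P ≠ 0 := by
    intro w hw0 hw χ
    obtain ⟨μ, h1, h2, h3⟩ := S.exists_mono (hρ b) hw0 hw χ (t := e b) (by
      have := heρ b
      omega)
    have h4 := Pool.Agent.TH144.MB.typ_monomial h2
    rw [h1] at h4
    exact ⟨_, h4, by rw [Pool.Agent.TH144.MB.eval_mono]; exact h3⟩
  refine ⟨e, hee, ?_, ?_, ?_⟩
  · intro y hy
    exact Pool.Agent.X213.FujFib.base_free χ (fun i => (hy i).1) (B0 _ (hy b).1 (hy b).2)
  · intro y z hy hz hyz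
    refine Pool.Agent.X213.FujFib.points he1 χ (fun i => (hy i).1) (fun i => (hz i).1)
      (fun g χ => B0 _ ?_ (hst b _ (hy b).2 g) χ) ?_ hyz
    · intro h
      refine (hy b).1 (funext fun j => ?_)
      exact (Pool.Agent.TH144.MB.mv_supp (D.α b) g (y b) j).1 (congrFun h j)
    · intro hyz χ
      obtain ⟨F, h1, h2, h3⟩ := S.points (hρ b) (y := z b) (y' := y b) (hz b).1 (hz b).2
        (hy b).1 (hy b).2 (by
        intro g h
        obtain ⟨c, hc⟩ := Submodule.mem_span_singleton.1 h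
        have hc0 : c ≠ 0 := by
          rintro rfl
          rw [zero_smul] at hc
          exact (hy b).1 (funext fun i =>
            (Pool.Agent.TH144.MB.mv_supp (D.α b) g (y b) i).1 (congrFun hc i).symm)
        refine hyz ⟨g, c⁻¹, fun i => ?_⟩
        have h1 := congrFun hc i
        simp only [Pi.smul_apply, smul_eq_mul, Pool.Agent.TH144.MB.mv] at h1
        have h2 : z b i = c⁻¹ * (c * z b i) := by
          rw [← mul_assoc, inv_mul_cancel₀ hc0, one_mul]
        rw [h2, h1]) χ (heρ b) hr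
      exact ⟨F, h1, h3, h2⟩
  · intro y hy u hu hne
    refine Pool.Agent.X213.FujFib.tangents he1 χ (fun i => (hy i).1)
      (B0 _ (hy b).1 (hy b).2) ?_ hne
    intro hub χ
    exact S.tangents (D.stable b) (hρ b) (hy b).1 (hy b).2 (hu b) (by
      intro h
      obtain ⟨c, hc⟩ := Submodule.mem_span_singleton.1 h
      exact hub ⟨c, fun i => by rw [← hc]; rfl⟩) χ (heρ b) hr

end Pool.Agent.Results.MP_e09b14_ag.FibrationsOverQuotients
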